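import Pool.Agent.Y413.FW.SPLIT
import Pool.Agent.Y413.FW.NUM
import Pool.Agent.Y413.FW.EX

/-!
# MP_1f54e8_co: the frequency of ones for all non-constant forbidden words

Letters: `true` is `1`, `false` is `0`; `k = |w|`.  For every word `w` of length `k ≥ 20` that
contains both letters,

`ρ^w = 1/2 - 2^(-k) (|w|₁ - k/2 + O(1)) / C_w`,  `C_w = Σ 2^(-p)` over `p = 0` and the periods
`p < k` of `w`,

with `|O(1)| ≤ 2`.  Hence the conjectured order is correct as soon as `|w|₁ - |v|₁ ≥ k/48 + 5`, and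
for every `k ≥ 480` it fails for two words of length `k` (outside `R`, with both letters) with
`|w|₁ - |v|₁ ≥ k/48 - 9`: the constant `1/48` is the exact size of the failure.

The definitions `NC`, `per`, `CC`, `ex`, `R` are in `Pool.Agent.Y413.FW.Stm`.
-/

set_option autoImplicit false

open Filter Topology Y413.FW

namespace Pool.Agent.Results.MP_1f54e8_co.FrequencyLaw

/-- The number of ones of a word. -/
def ones (u : List Bool) : ℕ := u.count true

/-- The words of length `n` that do not contain `w` as a factor. -/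
def Omega (w : List Bool) (n : ℕ) : Finset (Fin n → Bool) :=
  Finset.univ.filter fun u => ¬ w <:+: List.ofFn u

/-- `ρ^w = ρ`: the sum of `|u|₁` over the `w`-avoiding words `u` of length `n`, divided by `n`
times their number, tends to `ρ`. -/
def HasFrequency (w : List Bool) (ρ : ℝ) : Prop :=
  Tendsto (fun n : ℕ => (∑ u ∈ Omega w n, (ones (List.ofFn u) : ℝ)) /
    ((n : ℝ) * ((Omega w n).card : ℝ))) atTop (𝓝 ρ)

theorem image_Omega (u : List Bool) (n : ℕ) : (Omega u n).image List.ofFn = TH465.Fr.Om u n := by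
  ext x
  rw [Finset.mem_image, TH465.Fr.mem_Om]
  constructor
  · rintro ⟨f, hf, rfl⟩
    simp only [Omega, Finset.mem_filter, Finset.mem_univ, true_and] at hf
    exact ⟨by simp, hf⟩
  · rintro ⟨rfl, h⟩
    refine ⟨x.get, ?_, List.ofFn_get x⟩
    simp only [Omega, Finset.mem_filter, Finset.mem_univ, true_and]
    rwa [List.ofFn_get]

theorem card_Omega (u : List Bool) (n : ℕ) : ((Omega u n).card : ℝ) = TH465.Fr.A u n := by
  rw [TH465.Fr.A, ← image_Omega, Finset.card_image_of_injective _ List.ofFn_injective]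

theorem sum_Omega (u : List Bool) (n : ℕ) :
    ∑ x ∈ Omega u n, (ones (List.ofFn x) : ℝ) = TH465.Fr.B u n := by
  rw [TH465.Fr.B, ← image_Omega, Finset.sum_image]
  · rfl
  · intro a _ b _ h
    exact List.ofFn_injective h

theorem hasFrequency_iff (u : List Bool) (ρ : ℝ) : HasFrequency u ρ ↔
    Tendsto (fun n : ℕ => TH465.Fr.B u n / (n * TH465.Fr.A u n)) atTop (𝓝 ρ) := by
  unfold HasFrequency
  simp only [card_Omega, sum_Omega]

/-- the law -/
theorem law (w : List Bool) (h : NC w) (hk : 20 ≤ w.length) :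
    ∃ ρ : ℝ, HasFrequency w ρ ∧ |2 ^ w.length * CC w * (ρ - 1 / 2) + ex w| ≤ 2 := by
  have hS : ∀ p ∈ per w, p < w.length := fun p hp => (mem_per.mp hp).1
  have h0 : 0 ∈ per w := zero_mem_per (len_ge_two hk)
  obtain ⟨μ, h1, h2, h3⟩ := t_ROOT w.length (per w) hk h0 hS (one_not_per h)
  have h4 := t_LIM t_SPLIT t_C43 w h hk μ h1 h2 h3
  have h5 := t_NUM w.length (per w) (fun p => ((w.take p).count true : ℝ))
    (w.count true : ℝ) μ hk h0 hS (one_not_per h) (fun p _ => ⟨by positivity, by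
      have := List.count_le_length (a := true) (l := w.take p)
      have h6 : (w.take p).length ≤ p := by simp
      exact_mod_cast this.trans h6⟩) (by positivity)
    (by exact_mod_cast List.count_le_length) h1 h2 h3
  exact ⟨_, (hasFrequency_iff w _).mpr h4, h5⟩

/-- The frequency of ones for all non-constant forbidden words `w` of length `k ≥ 20`:
(1) it exists and is `1/2 - 2^(-k) (|w|₁ - k/2 + O(1)) / C_w`; (2) it is ordered by the number of
ones of `w` as soon as these numbers differ by `k/48 + 5`; (3) for every `k ≥ 480` the order fails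
for two words whose numbers of ones differ by at least `k/48 - 9`. -/
theorem result :
    (∀ w : List Bool, NC w → 20 ≤ w.length →
      ∃ ρ : ℝ, HasFrequency w ρ ∧ |2 ^ w.length * CC w * (ρ - 1 / 2) + ex w| ≤ 2) ∧
    (∀ v w : List Bool, NC v → NC w → v.length = w.length → 20 ≤ w.length →
      (w.length : ℝ) / 48 + 5 ≤ (ones w : ℝ) - (ones v : ℝ) →
      ∀ ρv ρw : ℝ, HasFrequency v ρv → HasFrequency w ρw → ρw < ρv) ∧
    (∀ k : ℕ, 480 ≤ k → ∃ v w : List Bool, NC v ∧ NC w ∧ v ∉ R ∧ w ∉ R ∧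
      v.length = k ∧ w.length = k ∧ ones v < ones w ∧
      (k : ℝ) / 48 - 9 ≤ (ones w : ℝ) - (ones v : ℝ) ∧
      ∃ ρv ρw : ℝ, HasFrequency v ρv ∧ HasFrequency w ρw ∧ ρv < ρw) := by
  have hone : ∀ w : List Bool, NC w → 1 ≤ CC w := by
    intro w h
    rw [CC_eq h]
    have : (0 : ℝ) ≤ ∑ p ∈ (per w).erase 0, (1 / 2 : ℝ) ^ p :=
      Finset.sum_nonneg fun p _ => by positivity
    linarith
  refine ⟨law, ?_, ?_⟩
  · intro v w hv hw hlen hk hd ρv ρw hρv hρw
    obtain ⟨ρv', hv1, hv2⟩ := law v hv (by omega)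
    obtain ⟨ρw', hw1, hw2⟩ := law w hw hk
    obtain rfl := tendsto_nhds_unique hv1 hρv
    obtain rfl := tendsto_nhds_unique hw1 hρw
    rw [hlen] at hv2
    have g1 := t_GAIN v hv (by omega)
    rw [hlen] at g1
    refine t_CMP w.length (ex v) (ex w) (CC v) (CC w) ρv' ρw' hk (hone v hv) (t_C43 v hv)
      (hone w hw) (t_C43 w hw) g1 (t_GAIN w hw hk) hv2 hw2 ?_
    unfold ex
    unfold ones at hd
    rw [hlen]
    linarith
  · intro k hk
    obtain ⟨v, w, hv, hw, hvR, hwR, hvk, hwk, hlt, hd, hex⟩ := t_EX k hk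
    obtain ⟨ρv, hv1, hv2⟩ := law v hv (by omega)
    obtain ⟨ρw, hw1, hw2⟩ := law w hw (by omega)
    refine ⟨v, w, hv, hw, hvR, hwR, hvk, hwk, hlt, hd, ρv, ρw, hv1, hw1, ?_⟩
    rw [hvk] at hv2
    rw [hwk] at hw2
    have hCv := hone v hv
    have hCw := hone w hw
    have h2k : (0 : ℝ) < 2 ^ k := by positivity
    rw [abs_le] at hv2 hw2
    have a1 : 2 ^ k * (ρv - 1 / 2) ≤ -((ex v - 2) / CC v) := by
      rw [← neg_div, le_div_iff₀ (by linarith)]
      have : 2 ^ k * (ρv - 1 / 2) * CC v = 2 ^ k * CC v * (ρv - 1 / 2) := by ring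
      rw [this]
      linarith
    have a2 : -((ex w + 2) / CC w) ≤ 2 ^ k * (ρw - 1 / 2) := by
      rw [← neg_div, div_le_iff₀ (by linarith)]
      have : 2 ^ k * (ρw - 1 / 2) * CC w = 2 ^ k * CC w * (ρw - 1 / 2) := by ring
      rw [this]
      linarith
    have a3 : 2 ^ k * (ρv - 1 / 2) < 2 ^ k * (ρw - 1 / 2) := by linarith
    have a4 := lt_of_mul_lt_mul_left a3 h2k.le
    linarith

end Pool.Agent.Results.MP_1f54e8_co.FrequencyLaw
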